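import Pool.Agent.W312.TP.Stm
import Pool.Agent.H673R2.TsTree

/-! Project TP (helper312), part PT: the tree of a parent function. -/

set_option autoImplicit false

namespace Pool.Agent.W639.TP

open Pool.Agent.H673R2.Ts

theorem proof_PT : Pool.Agent.W312.TP.PT := by
  intro n root par lev hroot hlev0 h
  let r : Fin n := ⟨root, hroot⟩
  have hr : ∀ x : Fin n, x = r ↔ (x : ℕ) = root := fun x => Fin.ext_iff
  let pr : Fin n → Fin n := fun x => if hx : (x : ℕ) = root then r else ⟨par x, (h x x.2 hx).1⟩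
  have hpr : ∀ x : Fin n, (x : ℕ) ≠ root → ((pr x : Fin n) : ℕ) = par x := by
    intro x hx
    simp only [pr, dif_neg hx]
  have hl : ∀ x : Fin n, (x : ℕ) ≠ root → lev (pr x) + 1 = lev x := by
    intro x hx
    rw [hpr x hx]
    exact (h x x.2 hx).2
  have hT := isTree_of_parent r pr (fun x => lev x) (fun x hx => by
    have := hl x (fun e => hx ((hr x).2 e))
    show lev (pr x) < lev x
    omega)
  have hne : ∀ x : Fin n, (x : ℕ) ≠ root → x ≠ pr x := by
    intro x hx e
    have h1 := hl x hx
    rw [← e] at h1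
    omega
  set T := SimpleGraph.fromRel fun x y : Fin n => x ≠ r ∧ y = pr x with hTdef
  have hadj : ∀ x : Fin n, (x : ℕ) ≠ root → T.Adj x (pr x) := by
    intro x hx
    rw [hTdef, SimpleGraph.fromRel_adj]
    exact ⟨hne x hx, Or.inl ⟨fun e => hx ((hr x).1 e), rfl⟩⟩
  have hd : ∀ (m : ℕ) (x : Fin n), lev x = m → T.dist x r ≤ lev x := by
    intro m
    induction m with
    | zero =>
      intro x hx
      by_cases hxr : (x : ℕ) = root
      · rw [(hr x).2 hxr, SimpleGraph.dist_self]
        omega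
      · have := hl x hxr
        omega
    | succ m ih =>
      intro x hx
      have hxr : (x : ℕ) ≠ root := by
        intro e
        rw [e, hlev0] at hx
        omega
      have h1 := hl x hxr
      have h2 := ih (pr x) (by omega)
      have h3 := hT.connected.dist_triangle (u := x) (v := pr x) (w := r)
      have h4 : T.dist x (pr x) = 1 := SimpleGraph.dist_eq_one_iff_adj.2 (hadj x hxr)
      omega
  refine ⟨T, hT, fun x y => ?_, fun x y => ?_⟩
  · rw [hTdef, SimpleGraph.fromRel_adj]
    constructor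
    · rintro ⟨-, ⟨h1, h2⟩ | ⟨h1, h2⟩⟩
      · have h3 : (x : ℕ) ≠ root := fun e => h1 ((hr x).2 e)
        exact Or.inl ⟨h3, by rw [h2, hpr x h3]⟩
      · have h3 : (y : ℕ) ≠ root := fun e => h1 ((hr y).2 e)
        exact Or.inr ⟨h3, by rw [h2, hpr y h3]⟩
    · rintro (⟨h1, h2⟩ | ⟨h1, h2⟩)
      · have h3 : y = pr x := Fin.ext (by rw [h2, hpr x h1])
        exact ⟨by rw [h3]; exact hne x h1, Or.inl ⟨fun e => h1 ((hr x).1 e), h3⟩⟩
      · have h3 : x = pr y := Fin.ext (by rw [h2, hpr y h1])
        exact ⟨by rw [h3]; exact (hne y h1).symm, Or.inr ⟨fun e => h1 ((hr y).1 e), h3⟩⟩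
  · have h1 := hd _ x rfl
    have h2 := hd _ y rfl
    have h3 := hT.connected.dist_triangle (u := x) (v := r) (w := y)
    rw [SimpleGraph.dist_comm (u := r)] at h3
    omega

end Pool.Agent.W639.TP
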